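import Pool.Agent.Helper19.Qh.Stmts
import Pool.Agent.Helper77.Lor.WIR

set_option autoImplicit false

/-!
# Module ABEL: Wirtinger inequality for functions which do not depend on the central variables
-/

namespace Pool.Agent.Helper19.Qh

open MeasureTheory Topology

noncomputable section

variable {m : ℕ}

/-- the linear part of the parametrisation of the cell -/
def abel_L (β : Fin (4 * m) → E m) : (Fin (4 * m) → ℝ) →L[ℝ] E m :=
  ∑ i, (ContinuousLinearMap.proj (R := ℝ) (φ := fun _ : Fin (4 * m) => ℝ) i).smulRight (β i)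

theorem abel_L_apply (β : Fin (4 * m) → E m) (x : Fin (4 * m) → ℝ) :
    abel_L β x = ∑ i, x i • β i := by
  unfold abel_L
  rw [sum_apply]
  rfl

theorem abel_L_single (β : Fin (4 * m) → E m) (i : Fin (4 * m)) :
    abel_L β (Pi.single i 1) = β i := by
  rw [abel_L_apply, Finset.sum_eq_single i]
  · simp
  · intro j _ hj
    simp [hj]
  · intro h
    exact absurd (Finset.mem_univ i) h

/-- the inclusion of the reals -/
def abel_c : ℝ →L[ℝ] Q := (ContinuousLinearMap.id ℝ ℝ).smulRight (1 : Q)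

theorem abel_c_apply (r : ℝ) : abel_c r = (r : Q) := by
  show r • (1 : Q) = (r : Q)
  rw [← Quaternion.coe_one, ← Quaternion.coe_smul, smul_eq_mul, mul_one]

theorem abel_cellpt (β : Fin (4 * m) → E m) (γ : Fin 3 → Q) (t : Fin 3 → ℝ) (u : ℝ)
    (x : Fin (4 * m) → ℝ) :
    cellpt β γ (x, t) u =
      (((-(u + ‖abel_L β x‖ ^ 2) / 2 : ℝ) : Q) + ∑ j, t j • γ j, abel_L β x) := by
  rw [abel_L_apply]
  rfl

theorem abel_cellpt_mem (β : Fin (4 * m) → E m) {γ : Fin 3 → Q} (hγ : ∀ j, (γ j).re = 0)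
    (t : Fin 3 → ℝ) {u : ℝ} (hu : 0 < u)
    (x : Fin (4 * m) → ℝ) : cellpt β γ (x, t) u ∈ SD m := by
  show 0 < hgt _
  rw [hgt_cellpt β hγ]
  exact hu

theorem abel_contDiff (β : Fin (4 * m) → E m) (γ : Fin 3 → Q) (t : Fin 3 → ℝ) (u : ℝ) :
    ContDiff ℝ 1 (fun x : Fin (4 * m) → ℝ => cellpt β γ (x, t) u) := by
  have e : (fun x : Fin (4 * m) → ℝ => cellpt β γ (x, t) u) = fun x =>
      (abel_c (-(u + ‖abel_L β x‖ ^ 2) / 2 : ℝ) + ∑ j, t j • γ j, abel_L β x) := by
    funext x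
    rw [abel_c_apply]
    exact abel_cellpt β γ t u x
  rw [e]
  refine ContDiff.prodMk ?_ (abel_L β).contDiff
  refine ContDiff.add ?_ contDiff_const
  have h1 : ContDiff ℝ 1 (fun x : Fin (4 * m) → ℝ => ‖abel_L β x‖ ^ 2) :=
    ContDiff.norm_sq ℝ (abel_L β).contDiff
  have h2 : ContDiff ℝ 1 (fun x : Fin (4 * m) → ℝ => -(u + ‖abel_L β x‖ ^ 2) / 2) :=
    ((contDiff_const.add h1).neg).div_const _
  exact abel_c.contDiff.comp h2

theorem abel_hasFDerivAt (β : Fin (4 * m) → E m) (γ : Fin 3 → Q) (t : Fin 3 → ℝ) (u : ℝ)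
    (x : Fin (4 * m) → ℝ) :
    HasFDerivAt (fun x : Fin (4 * m) → ℝ => cellpt β γ (x, t) u)
      ((abel_c.comp (-((innerSL ℝ (abel_L β x)).comp (abel_L β)))).prod
        (abel_L β)) x := by
  have e : (fun x : Fin (4 * m) → ℝ => cellpt β γ (x, t) u) = fun x =>
      (abel_c (-(u + ‖abel_L β x‖ ^ 2) / 2 : ℝ) + ∑ j, t j • γ j, abel_L β x) := by
    funext x
    rw [abel_c_apply]
    exact abel_cellpt β γ t u x
  rw [e]
  refine HasFDerivAt.prodMk ?_ (abel_L β).hasFDerivAt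
  refine HasFDerivAt.add_const _ ?_
  have h1 : HasFDerivAt (fun x : Fin (4 * m) → ℝ => ‖abel_L β x‖ ^ 2)
      (2 • (innerSL ℝ (abel_L β x)).comp (abel_L β)) x :=
    (abel_L β).hasFDerivAt.norm_sq
  have h2 := (h1.const_add u).const_mul (-(1 / 2) : ℝ)
  have h3 := abel_c.hasFDerivAt.comp x h2
  have e2 : (fun x : Fin (4 * m) → ℝ => abel_c (-(u + ‖abel_L β x‖ ^ 2) / 2 : ℝ)) =
      ⇑abel_c ∘ fun x : Fin (4 * m) → ℝ => -(1 / 2) * (u + ‖abel_L β x‖ ^ 2) := by
    funext y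
    show _ = abel_c (-(1 / 2) * (u + ‖abel_L β y‖ ^ 2) : ℝ)
    congr 1
    ring
  rw [e2]
  refine h3.congr_fderiv ?_
  refine ContinuousLinearMap.ext fun v => ?_
  show abel_c (-(1 / 2) * ((2 : ℕ) • (inner ℝ (abel_L β x) (abel_L β v) : ℝ)) : ℝ) =
    abel_c (-(inner ℝ (abel_L β x) (abel_L β v)) : ℝ)
  congr 1
  rw [nsmul_eq_mul]
  push_cast
  ring

/-- the horizontal derivative in the direction `b` -/
def abel_D (φ : Pt m → ℂ) (p : Pt m) : E m →ₗ[ℝ] ℂ where
  toFun b := XX b φ p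
  map_add' a b := XX_add a b φ p
  map_smul' r b := XX_smul r b φ p

theorem abel_D_apply (φ : Pt m → ℂ) (p : Pt m) (b : E m) :
    abel_D φ p b = XX b φ p := rfl

/-- a function without central derivative does not depend on the central variable -/
theorem abel_const {φ : Pt m → ℂ} (hφ : ContDiffOn ℝ 2 φ (SD m))
    (h0 : ∀ v : Q, v.re = 0 → ∀ p ∈ SD m, pd (v, 0) φ p = 0) (p : Pt m) (hp : p ∈ SD m)
    (w : Q) (hw : w.re = 0) :
    φ (p.1 + w, p.2) = φ p := by
  have hmem : ∀ s : ℝ, ((p.1 + s • w, p.2) : Pt m) ∈ SD m := by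
    intro s
    have : hgt ((p.1 + s • w, p.2) : Pt m) = hgt p := by
      unfold hgt
      simp only [Quaternion.re_add, Quaternion.re_smul, hw, smul_zero, add_zero]
    show 0 < hgt _
    rw [this]
    exact hp
  have hd : ∀ s : ℝ, HasDerivAt (fun s : ℝ => φ (p.1 + s • w, p.2)) 0 s := by
    intro s
    have h1 : HasFDerivAt φ (fderiv ℝ φ (p.1 + s • w, p.2))
        (p.1 + s • w, p.2) :=
      ((hφ.contDiffAt (isOpen_SD.mem_nhds (hmem s))).differentiableAt
        (by norm_num)).hasFDerivAt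
    have h2 : HasDerivAt (fun s : ℝ => ((p.1 + s • w, p.2) : Pt m))
        ((w, 0) : Pt m) s := by
      refine HasDerivAt.prodMk ?_ (hasDerivAt_const _ _)
      have h4 := ((hasDerivAt_id s).smul_const w).const_add p.1
      rwa [one_smul] at h4
    have h5 := h1.comp_hasDerivAt s h2
    have h6 : fderiv ℝ φ (p.1 + s • w, p.2) (w, 0) = 0 := h0 w hw _ (hmem s)
    rw [h6] at h5
    exact h5
  have h7 := is_const_of_deriv_eq_zero (fun s => (hd s).differentiableAt)
    (fun s => (hd s).deriv) 1 0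
  simp only [zero_smul, one_smul, add_zero] at h7
  exact h7

/-- product integral over the cell -/
theorem abel_lint {F : (Fin (4 * m) → ℝ) → ENNReal} (hF : Measurable F) :
    ∫⁻ x in Set.Icc (0 : (Fin (4 * m) → ℝ) × (Fin 3 → ℝ)) 1, F x.1 =
      ∫⁻ x in Set.Icc (0 : Fin (4 * m) → ℝ) 1, F x := by
  have h1 : Set.Icc (0 : (Fin (4 * m) → ℝ) × (Fin 3 → ℝ)) 1 =
      Set.Icc (0 : Fin (4 * m) → ℝ) 1 ×ˢ Set.Icc (0 : Fin 3 → ℝ) 1 :=
    (Set.Icc_prod_Icc _ _ _ _).symm
  have hv : volume (Set.Icc (0 : Fin 3 → ℝ) 1) = 1 := by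
    rw [Real.volume_Icc_pi]; simp
  rw [h1, Measure.volume_eq_prod, ← Measure.prod_restrict]
  have h2 := lintegral_prod_mul (μ := volume.restrict (Set.Icc (0 : Fin (4 * m) → ℝ) 1))
    (ν := volume.restrict (Set.Icc (0 : Fin 3 → ℝ) 1)) (f := F) (g := fun _ => 1) hF.aemeasurable
    aemeasurable_const
  simp only [mul_one] at h2
  rw [h2]
  simp [hv]

theorem abel_int (F : (Fin (4 * m) → ℝ) → ℂ) :
    ∫ x in Set.Icc (0 : (Fin (4 * m) → ℝ) × (Fin 3 → ℝ)) 1, F x.1 =
      ∫ x in Set.Icc (0 : Fin (4 * m) → ℝ) 1, F x := by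
  have h1 : Set.Icc (0 : (Fin (4 * m) → ℝ) × (Fin 3 → ℝ)) 1 =
      Set.Icc (0 : Fin (4 * m) → ℝ) 1 ×ˢ Set.Icc (0 : Fin 3 → ℝ) 1 :=
    (Set.Icc_prod_Icc _ _ _ _).symm
  have hv : volume (Set.Icc (0 : Fin 3 → ℝ) 1) = 1 := by
    rw [Real.volume_Icc_pi]; simp
  rw [h1, Measure.volume_eq_prod]
  have h2 := setIntegral_prod_mul (μ := (volume : Measure (Fin (4 * m) → ℝ)))
    (ν := (volume : Measure (Fin 3 → ℝ))) F (fun _ => (1 : ℂ)) (Set.Icc (0 : Fin (4 * m) → ℝ) 1)
    (Set.Icc (0 : Fin 3 → ℝ) 1)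
  simp only [mul_one] at h2
  rw [h2]
  simp [hv, Measure.real]

/-- the real orthonormal basis -/
def abel_dir (K : Fin (4 * m)) : E m :=
  ek (finProdFinEquiv.symm K).2 (qu (finProdFinEquiv.symm K).1)

theorem abel_sum_dir (f : E m → ℝ) : ∑ K : Fin (4 * m), f (abel_dir K) =
    ∑ k : Fin m, ∑ r : Fin 4, f (ek k (qu r)) := by
  have h1 : ∑ K : Fin (4 * m), f (abel_dir K) =
      ∑ q : Fin 4 × Fin m, f (ek q.2 (qu q.1)) := by
    rw [← Equiv.sum_comp (finProdFinEquiv (m := 4) (n := m)).symm]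
    rfl
  rw [h1, Fintype.sum_prod_type, Finset.sum_comm]

theorem abel_finrank : Module.finrank ℝ (E m) = 4 * m := by
  rw [LinearEquiv.finrank_eq (WithLp.linearEquiv 2 ℝ (Fin m → Q)), Module.finrank_pi_fintype]
  simp [Quaternion.finrank_eq_four, mul_comm]

/-- the quaternion with given coordinates -/
theorem abel_q (q : Q) : q = q.re • qu 0 + q.imI • qu 1 + q.imJ • qu 2 + q.imK • qu 3 := by
  apply Quaternion.ext
  · show q.re = q.re * 1 + q.imI * 0 + q.imJ * 0 + q.imK * 0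
    ring
  · show q.imI = q.re * 0 + q.imI * 1 + q.imJ * 0 + q.imK * 0
    ring
  · show q.imJ = q.re * 0 + q.imI * 0 + q.imJ * 1 + q.imK * 0
    ring
  · show q.imK = q.re * 0 + q.imI * 0 + q.imJ * 0 + q.imK * 1
    ring

theorem abel_ek_add (k : Fin m) (q r : Q) : (ek k (q + r) : E m) = ek k q + ek k r := by
  unfold ek
  ext j : 1
  by_cases h : j = k
  · subst h; simp
  · simp [h]

theorem abel_ek_smul (k : Fin m) (c : ℝ) (q : Q) : (ek k (c • q) : E m) = c • ek k q := by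
  unfold ek
  ext j : 1
  by_cases h : j = k
  · subst h; simp
  · simp [h]

theorem abel_sum_ek (v : E m) : v = ∑ k, (ek k (v k) : E m) := by
  ext j : 1
  simp only [ek, WithLp.ofLp_sum, Finset.sum_apply, PiLp.single_apply]
  rw [Finset.sum_eq_single j]
  · simp
  · intro b _ hb
    simp [hb.symm]
  · intro h
    exact absurd (Finset.mem_univ j) h

theorem abel_lam (lam : E m →ₗ[ℝ] ℝ) (k : Fin m) (q : Q) : lam (ek k q) =
    q.re * lam (ek k (qu 0)) + q.imI * lam (ek k (qu 1)) + q.imJ * lam (ek k (qu 2)) +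
      q.imK * lam (ek k (qu 3)) := by
  conv_lhs => rw [abel_q q]
  simp only [abel_ek_add, abel_ek_smul, map_add, map_smul, smul_eq_mul]

end

theorem st_ABEL : ST_ABEL := by
  intro m N β γ δ hC hdual φ hφ hper hcen u hu hmean
  have hγ := hC.im
  have hmem : ∀ (x : Fin (4 * m) → ℝ) (t : Fin 3 → ℝ), cellpt β γ (x, t) u ∈ SD m :=
    fun x t => abel_cellpt_mem β hγ t hu x
  set G : (Fin (4 * m) → ℝ) → ℂ := fun x => φ (cellpt β γ (x, 0) u) with hGdef
  have hc0 : ∀ x : Fin (4 * m) → ℝ, cellpt β γ (x, 0) u =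
      (((-(u + ‖abel_L β x‖ ^ 2) / 2 : ℝ) : Q), abel_L β x) := by
    intro x
    rw [abel_cellpt]
    refine Prod.ext ?_ rfl
    simp
  -- independence of the central variable
  have hGt : ∀ (x : Fin (4 * m) → ℝ) (t : Fin 3 → ℝ), φ (cellpt β γ (x, t) u) = G x := by
    intro x t
    have h1 := abel_const hφ hcen (cellpt β γ (x, 0) u) (hmem x 0) (∑ j, t j • γ j)
      (re_sum_im γ hγ t)
    rw [hGdef]
    simp only
    rw [← h1]
    congr 1
    rw [abel_cellpt, hc0]
  have hG : ContDiff ℝ 1 G :=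
    (hφ.of_le (by norm_num)).comp_contDiff (abel_contDiff β γ 0 u) (fun x => hmem x 0)
  have hp : ∀ i x, G (x + Pi.single i 1) = G x := by
    intro i x
    obtain ⟨a, ha⟩ := (hC.lat (β i)).2 ⟨Pi.single i 1, by
      rw [Finset.sum_eq_single i]
      · simp
      · intro j _ hj
        simp [hj]
      · intro h
        exact absurd (Finset.mem_univ i) h⟩
    have h1 := hper a (β i) ha (cellpt β γ (x, 0) u) (hmem x 0)
    have h2 : hgt (act (T a (β i)) (cellpt β γ (x, 0) u)) = u := by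
      rw [hgt_T (hC.norm _ _ ha), hgt_cellpt β hγ]
    have h3 : (act (T a (β i)) (cellpt β γ (x, 0) u)).2 = abel_L β (x + Pi.single i 1) := by
      rw [act_T, map_add, abel_L_single, abel_cellpt]
    have h4 : act (T a (β i)) (cellpt β γ (x, 0) u) =
        ((cellpt β γ (x + Pi.single i 1, 0) u).1 +
          (act (T a (β i)) (cellpt β γ (x, 0) u)).1.im,
          (cellpt β γ (x + Pi.single i 1, 0) u).2) := by
      generalize act (T a (β i)) (cellpt β γ (x, 0) u) = q at h2 h3 ⊢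
      rw [hc0]
      refine Prod.ext ?_ h3
      unfold hgt at h2
      rw [h3] at h2
      have h5 : q.1.re = -(u + ‖abel_L β (x + Pi.single i 1)‖ ^ 2) / 2 := by linarith
      show q.1 = ((-(u + ‖abel_L β (x + Pi.single i 1)‖ ^ 2) / 2 : ℝ) : Q) + q.1.im
      rw [← h5]
      exact (Quaternion.re_add_im q.1).symm
    have h6 : (act (T a (β i)) (cellpt β γ (x, 0) u)).1.im.re = 0 := Quaternion.re_im _
    rw [h4, abel_const hφ hcen _ (hmem _ 0) _ h6] at h1
    exact h1
  -- derivative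
  have hdG : ∀ (x : Fin (4 * m) → ℝ) (t : Fin 3 → ℝ) (i : Fin (4 * m)),
      fderiv ℝ G x (Pi.single i 1) = abel_D φ (cellpt β γ (x, t) u) (β i) := by
    intro x t i
    have e : G = fun x => φ (cellpt β γ (x, t) u) := by
      funext y
      exact (hGt y t).symm
    have h1 : HasFDerivAt φ (fderiv ℝ φ (cellpt β γ (x, t) u)) (cellpt β γ (x, t) u) :=
      ((hφ.contDiffAt (isOpen_SD.mem_nhds (hmem x t))).differentiableAt
        (by norm_num)).hasFDerivAt
    have h2 := h1.comp x (abel_hasFDerivAt β γ t u x)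
    have h3 : fderiv ℝ G x = (fderiv ℝ φ (cellpt β γ (x, t) u)).comp
        ((abel_c.comp (-((innerSL ℝ (abel_L β x)).comp (abel_L β)))).prod
        (abel_L β)) := by
      rw [e]
      exact h2.fderiv
    rw [h3, abel_D_apply]
    unfold XX
    have h4 : (cellpt β γ (x, t) u).2 = abel_L β x := by rw [abel_cellpt]
    have h5 : fderiv ℝ φ (cellpt β γ (x, t) u) ((-hin (β i) (abel_L β x)).im, 0) = 0 :=
      hcen _ (Quaternion.re_im _) _ (hmem x t)
    rw [h4]
    have h6 : ((-hin (β i) (abel_L β x), β i) : Pt m) =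
        ((((-hin (β i) (abel_L β x)).re : ℝ) : Q), β i) +
          (((-hin (β i) (abel_L β x)).im, 0) : Pt m) := by
      refine Prod.ext ?_ ?_
      · exact (Quaternion.re_add_im _).symm
      · simp
    rw [h6, map_add, h5, add_zero]
    show fderiv ℝ φ (cellpt β γ (x, t) u) _ = _
    congr 1
    refine Prod.ext ?_ ?_
    · show abel_c (-(inner ℝ (abel_L β x) (abel_L β (Pi.single i 1))) : ℝ) = _
      rw [abel_c_apply, abel_L_single, real_inner_comm, inner_re, Quaternion.re_neg]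
    · exact abel_L_single β i
  -- the basis
  have hfr : Fintype.card (Fin (4 * m)) = Module.finrank ℝ (E m) := by
    rw [abel_finrank]
    simp
  let 𝔅 : Module.Basis (Fin (4 * m)) ℝ (E m) :=
    basisOfLinearIndependentOfCardEqFinrank' β hC.li hfr
  have h𝔅 : ∀ i, 𝔅 i = β i := fun i => by
    simp [𝔅]
  let C : Fin (4 * m) → Fin (4 * m) → ℝ := fun k i => 𝔅.repr (abel_dir k) i
  have hCs : ∀ k, ∑ i, C k i • β i = abel_dir k := by
    intro k
    have := 𝔅.sum_repr (abel_dir k)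
    simp only [h𝔅] at this
    exact this
  have hdualC : ∀ ν : Fin (4 * m) → ℤ, ν ≠ 0 → δ ≤ ∑ k, (∑ i, C k i * (ν i : ℝ)) ^ 2 := by
    intro ν hν
    let lam : E m →ₗ[ℝ] ℝ := 𝔅.constr ℝ (fun i => (ν i : ℝ))
    have hlam : ∀ i, lam (β i) = ν i := fun i => by
      rw [← h𝔅 i]
      exact 𝔅.constr_basis ℝ _ i
    have hlamd : ∀ k, ∑ i, C k i * (ν i : ℝ) = lam (abel_dir k) := by
      intro k
      rw [← hCs k, map_sum]
      simp only [map_smul, hlam, smul_eq_mul]
    let ξ : E m := WithLp.toLp 2 (fun k =>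
      (⟨lam (ek k (qu 0)), lam (ek k (qu 1)), lam (ek k (qu 2)), lam (ek k (qu 3))⟩ : Q))
    have hξ : ∀ v : E m, inner ℝ ξ v = lam v := by
      intro v
      conv_rhs => rw [abel_sum_ek v, map_sum]
      rw [PiLp.inner_apply]
      refine Finset.sum_congr rfl fun k _ => ?_
      rw [abel_lam lam k (v k), Quaternion.inner_def, Quaternion.re_mul, Quaternion.re_star,
        Quaternion.imI_star, Quaternion.imJ_star, Quaternion.imK_star]
      show lam (ek k (qu 0)) * (v k).re - lam (ek k (qu 1)) * -(v k).imI -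
        lam (ek k (qu 2)) * -(v k).imJ - lam (ek k (qu 3)) * -(v k).imK = _
      ring
    have hξ0 : ξ ≠ 0 := by
      intro h0
      apply hν
      funext i
      have h1 := hξ (β i)
      rw [h0, inner_zero_left, hlam] at h1
      exact_mod_cast h1.symm
    have h2 := hdual ξ hξ0 (fun i => ⟨ν i, by rw [hξ, hlam]⟩)
    simp only [hlamd]
    rw [abel_sum_dir (fun b => lam b ^ 2)]
    refine h2.trans (le_of_eq ?_)
    rw [PiLp.norm_sq_eq_of_L2]
    refine Finset.sum_congr rfl fun k _ => ?_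
    rw [q_norm_sq, Fin.sum_univ_four]
  have hmean' : ∫ x in Set.Icc (0 : Fin (4 * m) → ℝ) 1, G x = 0 := by
    rw [← abel_int, ← hmean]
    refine integral_congr_ae (Filter.Eventually.of_forall fun x => ?_)
    exact (hGt x.1 x.2).symm
  have key := Pool.Agent.Helper77.Lor.cube hG hp C hdualC hmean'
  set GG : (Fin (4 * m) → ℝ) → ℝ := fun x =>
    ∑ k, ‖∑ i, (C k i : ℂ) * fderiv ℝ G x (Pi.single i 1)‖ ^ 2 with hGG
  have hpt : ∀ (x : Fin (4 * m) → ℝ) (t : Fin 3 → ℝ),
      ∑ k : Fin m, ∑ r : Fin 4, ‖XX (ek k (qu r)) φ (cellpt β γ (x, t) u)‖ ^ 2 = GG x := by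
    intro x t
    have h1 : ∀ k, ∑ i, (C k i : ℂ) * fderiv ℝ G x (Pi.single i 1) =
        abel_D φ (cellpt β γ (x, t) u) (abel_dir k) := by
      intro k
      rw [← hCs k, map_sum]
      refine Finset.sum_congr rfl fun i _ => ?_
      rw [map_smul, hdG x t i, Complex.real_smul]
    rw [hGG]
    simp only [h1]
    rw [abel_sum_dir (fun b => ‖abel_D φ (cellpt β γ (x, t) u) b‖ ^ 2)]
    simp only [abel_D_apply]
  have hGGc : Continuous GG := by
    rw [hGG]
    refine continuous_finsetSum _ fun k _ => ?_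
    refine (Continuous.norm ?_).pow 2
    refine continuous_finsetSum _ fun i _ => ?_
    exact continuous_const.mul ((hG.continuous_fderiv one_ne_zero).clm_apply continuous_const)
  have i1 : IntegrableOn (fun x => ‖G x‖ ^ 2) (Set.Icc (0 : Fin (4 * m) → ℝ) 1) :=
    (hG.continuous.norm.pow 2).integrableOn_Icc
  have i2 : IntegrableOn GG (Set.Icc (0 : Fin (4 * m) → ℝ) 1) := hGGc.integrableOn_Icc
  have l1 : cellInt β γ (fun p => ENNReal.ofReal (‖φ p‖ ^ 2)) u =
      ENNReal.ofReal (∫ x in Set.Icc (0 : Fin (4 * m) → ℝ) 1, ‖G x‖ ^ 2) := by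
    rw [ofReal_integral_eq_lintegral_ofReal i1
      (Filter.Eventually.of_forall fun x => by positivity), ← abel_lint
      (F := fun x => ENNReal.ofReal (‖G x‖ ^ 2))
      (hG.continuous.norm.pow 2).measurable.ennreal_ofReal]
    unfold cellInt
    refine lintegral_congr fun x => ?_
    show ENNReal.ofReal (‖φ (cellpt β γ (x.1, x.2) u)‖ ^ 2) = _
    rw [hGt]
  have l2 : cellInt β γ (fun p => ENNReal.ofReal
      (∑ k : Fin m, ∑ r : Fin 4, ‖XX (ek k (qu r)) φ p‖ ^ 2)) u =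
      ENNReal.ofReal (∫ x in Set.Icc (0 : Fin (4 * m) → ℝ) 1, GG x) := by
    rw [ofReal_integral_eq_lintegral_ofReal i2
      (Filter.Eventually.of_forall fun x => by rw [hGG]; positivity), ← abel_lint
      hGGc.measurable.ennreal_ofReal]
    unfold cellInt
    refine lintegral_congr fun x => ?_
    show ENNReal.ofReal (∑ k : Fin m, ∑ r : Fin 4,
      ‖XX (ek k (qu r)) φ (cellpt β γ (x.1, x.2) u)‖ ^ 2) = _
    rw [hpt]
  rw [l1, l2]
  rcases le_total 0 δ with hδ | hδ
  · rw [← ENNReal.ofReal_mul (by positivity)]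
    exact ENNReal.ofReal_le_ofReal key
  · have : 4 * Real.pi ^ 2 * δ ≤ 0 := by
      have h1 : 0 ≤ 4 * Real.pi ^ 2 := by positivity
      nlinarith
    rw [ENNReal.ofReal_of_nonpos this, zero_mul]
    exact zero_le

end Pool.Agent.Helper19.Qh
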